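import Mathlib

/-!
# Products of four terms of an arithmetic progression that are `7`-, `14`- or `37`-gonal numbers

Each of the three remaining values `k = 7, 14, 37` has a solution of
`a (a + d) (a + 2 d) (a + 3 d) = P_k(r)` in positive integers, even with `gcd (a, d) = 1`:

* `18 * 19 * 20 * 21 = 143640 = P_7(240)`;
* `129 * 136 * 143 * 150 = P_14(7920)`;
* `69 * 817 * 1565 * 2313 = P_37(107985)`.
-/

set_option autoImplicit false

namespace Pool.Agent.Results.MP_8d002f_nt.HeptagonalSolutions

/-- The `r`-th `k`-gonal number `r ((k - 2) r - (k - 4)) / 2`, as a rational number. -/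
def polygonal (k r : ℤ) : ℚ := (1 / 2 : ℚ) * (r : ℚ) * (((k : ℚ) - 2) * (r : ℚ) - ((k : ℚ) - 4))

/-- For each `k` in `{7, 14, 37}` there are positive integers `a`, `d`, `r` with `gcd (a, d) = 1` and
`a (a + d) (a + 2 d) (a + 3 d) = P_k(r)`. -/
theorem result : ∀ k ∈ ({7, 14, 37} : Finset ℤ), ∃ a d r : ℤ, 1 ≤ a ∧ 1 ≤ d ∧ 1 ≤ r ∧
    Int.gcd a d = 1 ∧ ((a * (a + d) * (a + 2 * d) * (a + 3 * d) : ℤ) : ℚ) = polygonal k r := by
  intro k hk
  simp only [Finset.mem_insert, Finset.mem_singleton] at hk
  rcases hk with rfl | rfl | rfl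
  · exact ⟨18, 1, 240, by norm_num, by norm_num, by norm_num, by norm_num, by
      norm_num [polygonal]⟩
  · exact ⟨129, 7, 7920, by norm_num, by norm_num, by norm_num, by norm_num, by
      norm_num [polygonal]⟩
  · exact ⟨69, 748, 107985, by norm_num, by norm_num, by norm_num, by norm_num, by
      norm_num [polygonal]⟩

end Pool.Agent.Results.MP_8d002f_nt.HeptagonalSolutions
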